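import Pool.Agent.R456.CL.WF
import Pool.Agent.R456.CL.Cut456
import Pool.Agent.R456.CL.Sa456

/-!
# MP_3fc7b1_an, Q1: every infinite AW*-factor is a clean ring

`IsAWStar A` (Kaplansky's two conditions), `IsFactor A` (the center is the scalars) and
`IsInfiniteAlg A` (the unit is an infinite projection) are defined in `Pool.Agent.R456.CL.Defs`.
No countable decomposability is assumed.
-/

set_option autoImplicit false

namespace Pool.Agent.Results.MP_3fc7b1_an.InfiniteFactorsClean

open Pool.Agent.R456.CL

universe u

/-- Every infinite AW*-factor is clean: each element is the sum of a unit and an idempotent. -/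
theorem result (A : Type u) [CStarAlgebra A] (hAW : IsAWStar A) (hfac : IsFactor A)
    (hinf : IsInfiniteAlg A) (x : A) :
    ∃ (v : Aˣ) (e : A), e * e = e ∧ x = (v : A) + e := by
  have hsa : PSa A := sa456_ok A hAW
  have hcut : PCut A := cut456_ok A hsa
  have hone : PJ (1 : A) := ⟨by simp [IsIdempotentElem], by simp [IsSelfAdjoint]⟩
  obtain ⟨P, _, _, hPP, h1, h2, y, h3, h4, h5, h6⟩ :=
    clean_of_sa A hAW hfac hinf hsa hcut 1 x hone (one_mul x) (mul_one x)
  exact ⟨⟨x - P, y, h6, h5⟩, P, hPP, by simp⟩

end Pool.Agent.Results.MP_3fc7b1_an.InfiniteFactorsClean
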